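import Mathlib

set_option autoImplicit false

namespace Pool.Agent.Results.MP_72b122_al.LocallySolid

open Topology Filter TopologicalSpace

def G : Type := (ℕ →₀ ℤ) × (ℕ →₀ ℤ)

noncomputable instance : CommGroup G :=
  inferInstanceAs (CommGroup (Multiplicative ((ℕ →₀ ℤ) × (ℕ →₀ ℤ))))
noncomputable instance : Lattice G := inferInstanceAs (Lattice ((ℕ →₀ ℤ) × (ℕ →₀ ℤ)))

def p (x : G) (i : ℕ) : ℤ := x.1 i
def q (x : G) (i : ℕ) : ℤ := x.2 i

lemma gext {x y : G} (h1 : ∀ i, p x i = p y i) (h2 : ∀ i, q x i = q y i) : x = y :=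
  Prod.ext (Finsupp.ext h1) (Finsupp.ext h2)

@[simp] lemma p_mul (x y : G) (i : ℕ) : p (x * y) i = p x i + p y i := rfl
@[simp] lemma q_mul (x y : G) (i : ℕ) : q (x * y) i = q x i + q y i := rfl
@[simp] lemma p_inv (x : G) (i : ℕ) : p x⁻¹ i = - p x i := rfl
@[simp] lemma q_inv (x : G) (i : ℕ) : q x⁻¹ i = - q x i := rfl
@[simp] lemma p_one (i : ℕ) : p 1 i = 0 := rfl
@[simp] lemma q_one (i : ℕ) : q 1 i = 0 := rfl
@[simp] lemma p_sup (x y : G) (i : ℕ) : p (x ⊔ y) i = max (p x i) (p y i) :=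
  Finsupp.sup_apply _ _ _
@[simp] lemma q_sup (x y : G) (i : ℕ) : q (x ⊔ y) i = max (q x i) (q y i) :=
  Finsupp.sup_apply _ _ _
@[simp] lemma p_inf (x y : G) (i : ℕ) : p (x ⊓ y) i = min (p x i) (p y i) :=
  Finsupp.inf_apply _ _ _
@[simp] lemma q_inf (x y : G) (i : ℕ) : q (x ⊓ y) i = min (q x i) (q y i) :=
  Finsupp.inf_apply _ _ _
lemma le_iff (x y : G) : x ≤ y ↔ (∀ i, p x i ≤ p y i) ∧ ∀ i, q x i ≤ q y i := Iff.rfl

instance : MulLeftMono G := ⟨fun z x y h => by
  rw [le_iff] at h ⊢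
  exact ⟨fun i => by simpa using h.1 i, fun i => by simpa using h.2 i⟩⟩

instance : MulRightMono G := ⟨fun z x y h => by
  show x * z ≤ y * z
  rw [le_iff] at h ⊢
  exact ⟨fun i => by simpa using h.1 i, fun i => by simpa using h.2 i⟩⟩

lemma supp (x : G) : ∃ M, ∀ i, M ≤ i → p x i = 0 ∧ q x i = 0 := by
  obtain ⟨M, hM⟩ := (x.1.support ∪ x.2.support).bddAbove
  refine ⟨M + 1, fun i hi => ⟨?_, ?_⟩⟩ <;> by_contra h
  · have := hM (a := i) (by simp only [Finset.coe_union, Set.mem_union, Finset.mem_coe,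
      Finsupp.mem_support_iff]; exact Or.inl h)
    omega
  · have := hM (a := i) (by simp only [Finset.coe_union, Set.mem_union, Finset.mem_coe,
      Finsupp.mem_support_iff]; exact Or.inr h)
    omega

def V (x : G) (N : ℕ) : Set G :=
  {y | (∀ i, i < N → p y i = p x i) ∧ ∀ i, p y i - p x i = q y i - q x i}

instance : TopologicalSpace G where
  IsOpen U := ∀ x ∈ U, ∃ N, V x N ⊆ U
  isOpen_univ := fun _ _ => ⟨0, Set.subset_univ _⟩
  isOpen_inter := fun s t hs ht x hx => by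
    obtain ⟨N, hN⟩ := hs x hx.1
    obtain ⟨M, hM⟩ := ht x hx.2
    exact ⟨max N M, fun y hy => ⟨hN ⟨fun i hi => hy.1 i (by omega), hy.2⟩,
      hM ⟨fun i hi => hy.1 i (by omega), hy.2⟩⟩⟩
  isOpen_sUnion := fun s hs x ⟨t, ht, hx⟩ => by
    obtain ⟨N, hN⟩ := hs t ht x hx
    exact ⟨N, fun y hy => ⟨t, ht, hN hy⟩⟩

lemma open_iff (U : Set G) : IsOpen U ↔ ∀ x ∈ U, ∃ N, V x N ⊆ U := Iff.rfl

lemma self_mem (x : G) (N : ℕ) : x ∈ V x N := ⟨fun _ _ => rfl, fun _ => by simp⟩

lemma V_open (x : G) (N : ℕ) : IsOpen (V x N) := fun y hy => ⟨N, fun z hz =>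
  ⟨fun i hi => (hz.1 i hi).trans (hy.1 i hi), fun i => by
    have := hz.2 i
    have := hy.2 i
    omega⟩⟩

lemma cont2 (f : G → G → G)
    (h : ∀ x y N, ∃ M, ∀ x' ∈ V x M, ∀ y' ∈ V y M, f x' y' ∈ V (f x y) N) :
    Continuous fun z : G × G => f z.1 z.2 := by
  rw [continuous_def]
  intro U hU
  rw [isOpen_prod_iff]
  intro x y hxy
  obtain ⟨N, hN⟩ := hU _ hxy
  obtain ⟨M, hM⟩ := h x y N
  exact ⟨V x M, V y M, V_open _ _, V_open _ _, self_mem _ _, self_mem _ _,
    fun z hz => hN (hM _ hz.1 _ hz.2)⟩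

instance : IsTopologicalGroup G where
  continuous_mul := cont2 (· * ·) fun x y N => ⟨N, fun x' hx y' hy =>
    ⟨fun i hi => by simp [hx.1 i hi, hy.1 i hi], fun i => by
      have := hx.2 i
      have := hy.2 i
      simp only [p_mul, q_mul]
      omega⟩⟩
  continuous_inv := by
    rw [continuous_def]
    intro U hU x hx
    obtain ⟨N, hN⟩ := hU _ hx
    exact ⟨N, fun y hy => hN ⟨fun i hi => by simp [hy.1 i hi], fun i => by
      have := hy.2 i
      simp only [p_inv, q_inv]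
      omega⟩⟩

lemma latt (f : G → G → G) (g : ℤ → ℤ → ℤ)
    (hp : ∀ x y i, p (f x y) i = g (p x i) (p y i))
    (hq : ∀ x y i, q (f x y) i = g (q x i) (q y i)) : Continuous fun z : G × G => f z.1 z.2 := by
  refine cont2 f fun x y N => ?_
  obtain ⟨M1, h1⟩ := supp x
  obtain ⟨M2, h2⟩ := supp y
  refine ⟨N + M1 + M2, fun x' hx y' hy => ⟨fun i hi => ?_, fun i => ?_⟩⟩
  · rw [hp, hp, hx.1 i (by omega), hy.1 i (by omega)]
  · have a1 := hx.2 i
    have a2 := hy.2 i
    rw [hp, hp, hq, hq]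
    by_cases hi : i < N + M1 + M2
    · have b1 := hx.1 i hi
      have b2 := hy.1 i hi
      rw [b1, b2, show q x' i = q x i by omega, show q y' i = q y i by omega]
      omega
    · obtain ⟨b1, b2⟩ := h1 i (by omega)
      obtain ⟨b3, b4⟩ := h2 i (by omega)
      rw [b1, b2, b3, b4, show q x' i = p x' i by omega, show q y' i = p y' i by omega]

instance : TopologicalLattice G where
  continuous_inf := latt (· ⊓ ·) min p_inf q_inf
  continuous_sup := latt (· ⊔ ·) max p_sup q_sup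

def A : Subgroup G where
  carrier := {x | ∀ i, q x i = 0}
  mul_mem' := fun ha hb i => by simp [ha i, hb i]
  one_mem' := fun _ => rfl
  inv_mem' := fun ha i => by simp [ha i]

def B : Subgroup G where
  carrier := {x | ∀ i, p x i = 0}
  mul_mem' := fun ha hb i => by simp [ha i, hb i]
  one_mem' := fun _ => rfl
  inv_mem' := fun ha i => by simp [ha i]

lemma A_closed : IsClosed (A : Set G) := by
  rw [← isOpen_compl_iff]
  intro x hx
  obtain ⟨i, hi⟩ := not_forall.1 hx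
  refine ⟨i + 1, fun y hy h => hi ?_⟩
  have := hy.1 i (by omega)
  have := hy.2 i
  have := h i
  omega

lemma B_closed : IsClosed (B : Set G) := by
  rw [← isOpen_compl_iff]
  intro x hx
  obtain ⟨i, hi⟩ := not_forall.1 hx
  refine ⟨i + 1, fun y hy h => hi ?_⟩
  have := hy.1 i (by omega)
  have := h i
  omega


theorem not_discrete : ¬ DiscreteTopology G := by
  intro h
  obtain ⟨N, hN⟩ := (open_iff {1}).1 (isOpen_discrete _) 1 rfl
  have : ((Finsupp.single N 1, Finsupp.single N 1) : G) ∈ V 1 N :=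
    ⟨fun i hi => Finsupp.single_eq_of_ne (by omega), fun i => by simp only [p, q]; rfl⟩
  have h1 := hN this
  have h2 : p ((Finsupp.single N 1, Finsupp.single N 1) : G) N = 0 := by
    rw [Set.mem_singleton_iff.1 h1]; rfl
  have h3 : p ((Finsupp.single N 1, Finsupp.single N 1) : G) N = 1 := Finsupp.single_eq_same
  omega

instance : T2Space G := by
  refine ⟨fun x y hxy => ?_⟩
  have : ∃ i, p x i ≠ p y i ∨ q x i ≠ q y i := by
    by_contra h
    push Not at h
    exact hxy (gext (fun i => (h i).1) fun i => (h i).2)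
  obtain ⟨i, hi⟩ := this
  refine ⟨V x (i + 1), V y (i + 1), V_open _ _, V_open _ _, self_mem _ _, self_mem _ _,
    Set.disjoint_left.2 fun z h1 h2 => ?_⟩
  have a1 := h1.1 i (by omega)
  have a2 := h2.1 i (by omega)
  have a3 := h1.2 i
  have a4 := h2.2 i
  omega

instance : Countable G := inferInstanceAs (Countable ((ℕ →₀ ℤ) × (ℕ →₀ ℤ)))

instance : SecondCountableTopology G := by
  have hb : IsTopologicalBasis (Set.range fun z : G × ℕ => V z.1 z.2) := by
    refine isTopologicalBasis_of_isOpen_of_nhds ?_ ?_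
    · rintro _ ⟨z, rfl⟩
      exact V_open _ _
    · intro x U hx hU
      obtain ⟨N, hN⟩ := hU x hx
      exact ⟨V x N, ⟨(x, N), rfl⟩, self_mem _ _, hN⟩
  exact hb.secondCountableTopology (Set.countable_range _)

instance : DiscreteTopology A := by
  refine discreteTopology_iff_isOpen_singleton.2 fun x => ?_
  refine ⟨V x 0, V_open _ _, ?_⟩
  ext y
  refine ⟨fun hy => Subtype.ext (gext (fun i => ?_) fun i => ?_), fun hy => ?_⟩
  · have h1 : p (y : G) i - p (x : G) i = q (y : G) i - q (x : G) i := hy.2 i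
    have h2 : q (x : G) i = 0 := x.2 i
    have h3 : q (y : G) i = 0 := y.2 i
    omega
  · exact (y.2 i).trans (x.2 i).symm
  · rw [Set.mem_singleton_iff.1 hy]; exact self_mem _ _

instance : DiscreteTopology B := by
  refine discreteTopology_iff_isOpen_singleton.2 fun x => ?_
  refine ⟨V x 0, V_open _ _, ?_⟩
  ext y
  refine ⟨fun hy => Subtype.ext (gext (fun i => ?_) fun i => ?_), fun hy => ?_⟩
  · exact (y.2 i).trans (x.2 i).symm
  · have h1 : p (y : G) i - p (x : G) i = q (y : G) i - q (x : G) i := hy.2 i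
    have h2 : p (x : G) i = 0 := x.2 i
    have h3 : p (y : G) i = 0 := y.2 i
    omega
  · rw [Set.mem_singleton_iff.1 hy]; exact self_mem _ _

/-- `G` is, as a lattice-ordered group, the direct sum of its normal `ℓ`-subgroups `A` and `B`. -/
def IsLSum {G : Type*} [Group G] [Lattice G] (A B : Subgroup G) : Prop :=
  A.Normal ∧ B.Normal ∧ (∀ x ∈ A, ∀ y ∈ A, x ⊔ y ∈ A ∧ x ⊓ y ∈ A) ∧
    (∀ x ∈ B, ∀ y ∈ B, x ⊔ y ∈ B ∧ x ⊓ y ∈ B) ∧
    Function.Bijective (fun z : A × B => (z.1 : G) * (z.2 : G)) ∧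
    ∀ z w : A × B, z ≤ w ↔ (z.1 : G) * (z.2 : G) ≤ (w.1 : G) * (w.2 : G)

theorem lsum : IsLSum A B := by
  have inj : Function.Injective (fun z : A × B => (z.1 : G) * (z.2 : G)) := by
    rintro ⟨a, b⟩ ⟨c, d⟩ e
    have e1 : ∀ i, p ((a : G) * b) i = p ((c : G) * d) i := fun i => congrArg (p · i) e
    have e2 : ∀ i, q ((a : G) * b) i = q ((c : G) * d) i := fun i => congrArg (q · i) e
    refine Prod.ext (Subtype.ext (gext (fun i => ?_) fun i => ?_))
      (Subtype.ext (gext (fun i => ?_) fun i => ?_))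
    · simpa [b.2 i, d.2 i] using e1 i
    · exact (a.2 i).trans (c.2 i).symm
    · exact (b.2 i).trans (d.2 i).symm
    · simpa [a.2 i, c.2 i] using e2 i
  have surj : Function.Surjective (fun z : A × B => (z.1 : G) * (z.2 : G)) := by
    intro x
    exact ⟨(⟨(x.1, 0), fun _ => rfl⟩, ⟨(0, x.2), fun _ => rfl⟩),
      gext (fun i => add_zero _) (fun i => zero_add _)⟩
  have ord : ∀ z w : A × B, z ≤ w ↔ (z.1 : G) * (z.2 : G) ≤ (w.1 : G) * (w.2 : G) := by
    rintro ⟨a, b⟩ ⟨c, d⟩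
    show (a : G) ≤ c ∧ (b : G) ≤ d ↔ (a : G) * b ≤ (c : G) * d
    simp only [le_iff, p_mul, q_mul]
    have h1 : ∀ i, q a i = 0 := a.2
    have h2 : ∀ i, p b i = 0 := b.2
    have h3 : ∀ i, q c i = 0 := c.2
    have h4 : ∀ i, p d i = 0 := d.2
    simp [h1, h2, h3, h4]
  exact ⟨inferInstance, inferInstance,
    fun x hx y hy => ⟨fun i => by simp [hx i, hy i], fun i => by simp [hx i, hy i]⟩,
    fun x hx y hy => ⟨fun i => by simp [hx i, hy i], fun i => by simp [hx i, hy i]⟩,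
    ⟨inj, surj⟩, ord⟩

section general

variable {G : Type*} [Group G] [Lattice G] {A B : Subgroup G}

theorem comm (h : IsLSum A B) (a : A) (b : B) : (a : G) * b = b * a := by
  have hd : Disjoint A B := by
    rw [Subgroup.disjoint_def]
    intro x hx hy
    have h1 : (fun z : A × B => (z.1 : G) * (z.2 : G)) (⟨x, hx⟩, 1) =
        (fun z : A × B => (z.1 : G) * (z.2 : G)) (1, ⟨x, hy⟩) := by simp
    have h2 := congrArg Prod.fst (h.2.2.2.2.1.1 h1)
    exact congrArg Subtype.val h2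
  exact Subgroup.commute_of_normal_of_disjoint A B h.1 h.2.1 hd a b a.2 b.2

/-- The multiplication map as a homomorphism. -/
def hom (h : IsLSum A B) : A × B →* G where
  toFun z := z.1 * z.2
  map_one' := by simp
  map_mul' := fun x y => by
    have := comm h y.1 x.2
    simp only [Prod.fst_mul, Prod.snd_mul, Subgroup.coe_mul]
    rw [mul_assoc, mul_assoc, ← mul_assoc (y.1 : G), this, mul_assoc]

theorem bounds [MulLeftMono G] [MulRightMono G] (h : IsLSum A B) (z : A × B) :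
    ((z.1 : G) * z.2)⁻¹ ⊓ ((z.1 : G) * z.2) ≤ z.1 ∧
      (z.1 : G) ≤ ((z.1 : G) * z.2) ⊔ ((z.1 : G) * z.2)⁻¹ ∧
    ((z.1 : G) * z.2)⁻¹ ⊓ ((z.1 : G) * z.2) ≤ z.2 ∧
      (z.2 : G) ≤ ((z.1 : G) * z.2) ⊔ ((z.1 : G) * z.2)⁻¹ := by
  have up : ∀ w : A × B, (w.1 : G) ≤ ((w.1 : G) * w.2) ⊔ ((w.1 : G) * w.2)⁻¹ ∧
      (w.2 : G) ≤ ((w.1 : G) * w.2) ⊔ ((w.1 : G) * w.2)⁻¹ := by
    intro w
    obtain ⟨v, hv⟩ := h.2.2.2.2.1.2 (((w.1 : G) * w.2) ⊔ ((w.1 : G) * w.2)⁻¹)
    have hv' : (v.1 : G) * v.2 = ((w.1 : G) * w.2) ⊔ ((w.1 : G) * w.2)⁻¹ := hv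
    have h1 : w ≤ v := (h.2.2.2.2.2 w v).2 (by rw [hv']; exact le_sup_left)
    have h2 : (1 : A × B) ≤ v := (h.2.2.2.2.2 1 v).2 (by
      rw [hv', Prod.fst_one, Prod.snd_one, Subgroup.coe_one, Subgroup.coe_one, one_mul]
      exact one_le_mabs ((w.1 : G) * w.2))
    constructor
    · have h3 : ((w.1, 1) : A × B) ≤ v := ⟨h1.1, h2.2⟩
      have := (h.2.2.2.2.2 _ _).1 h3
      rw [hv'] at this
      simpa using this
    · have h3 : ((1, w.2) : A × B) ≤ v := ⟨h2.1, h1.2⟩
      have := (h.2.2.2.2.2 _ _).1 h3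
      rw [hv'] at this
      simpa using this
  have h1 := up z
  have h2 := up z⁻¹
  have e : ((z⁻¹.1 : A) : G) * ((z⁻¹.2 : B) : G) = ((z.1 : G) * z.2)⁻¹ := by
    have := (hom h).map_inv z
    exact this
  rw [e, inv_inv] at h2
  have e3 : (((z.1 : G) * z.2)⁻¹ ⊔ ((z.1 : G) * z.2))⁻¹ = ((z.1 : G) * z.2)⁻¹ ⊓ ((z.1 : G) * z.2) := by
    rw [inv_sup, inv_inv, inf_comm]
  refine ⟨?_, h1.1, ?_, h1.2⟩
  · rw [← e3]
    have h5 := inv_le_inv_iff.2 h2.1
    rw [Prod.fst_inv, Subgroup.coe_inv, inv_inv] at h5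
    exact h5
  · rw [← e3]
    have h5 := inv_le_inv_iff.2 h2.2
    rw [Prod.snd_inv, Subgroup.coe_inv, inv_inv] at h5
    exact h5

theorem homeo_of_convex [MulLeftMono G] [MulRightMono G] [TopologicalSpace G]
    [IsTopologicalGroup G] [TopologicalLattice G] (h : IsLSum A B)
    (hc : ∀ U ∈ 𝓝 (1 : G), ∃ V ∈ 𝓝 (1 : G), V ⊆ U ∧ V.OrdConnected) :
    IsHomeomorph (fun z : A × B => (z.1 : G) * (z.2 : G)) := by
  let e : A × B ≃* G := MulEquiv.ofBijective (hom h) h.2.2.2.2.1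
  have hcont : Continuous (hom h) := by
    show Continuous fun z : A × B => (z.1 : G) * (z.2 : G)
    fun_prop
  have key : ∀ U ∈ 𝓝 (1 : G), ∀ᶠ g in 𝓝 (1 : G),
      (((e.symm g).1 : A) : G) ∈ U ∧ (((e.symm g).2 : B) : G) ∈ U := by
    intro U hU
    obtain ⟨V, hV, hVU, hVc⟩ := hc U hU
    have c1 : Tendsto (fun g : G => g ⊔ g⁻¹) (𝓝 1) (𝓝 1) := by
      have : Continuous fun g : G => g ⊔ g⁻¹ := by fun_prop
      simpa using this.tendsto 1
    have c2 : Tendsto (fun g : G => g⁻¹ ⊓ g) (𝓝 1) (𝓝 1) := by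
      have : Continuous fun g : G => g⁻¹ ⊓ g := by fun_prop
      simpa using this.tendsto 1
    filter_upwards [c1 hV, c2 hV] with g h1 h2
    obtain ⟨b1, b2, b3, b4⟩ := bounds h (e.symm g)
    have e1 : (((e.symm g).1 : A) : G) * (((e.symm g).2 : B) : G) = g := e.apply_symm_apply g
    rw [e1] at b1 b2 b3 b4
    exact ⟨hVU (hVc.out h2 h1 ⟨b1, b2⟩), hVU (hVc.out h2 h1 ⟨b3, b4⟩)⟩
  have hinv : Continuous e.symm := by
    refine continuous_of_continuousAt_one e.symm.toMonoidHom ?_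
    show Tendsto e.symm (𝓝 1) (𝓝 (e.symm 1))
    rw [map_one, show (1 : A × B) = ((1 : A), (1 : B)) from rfl, nhds_prod_eq]
    refine tendsto_prod_iff'.2 ⟨?_, ?_⟩
    · rw [nhds_subtype_eq_comap, tendsto_comap_iff]
      exact fun U hU => (key U hU).mono fun g hg => hg.1
    · rw [nhds_subtype_eq_comap, tendsto_comap_iff]
      exact fun U hU => (key U hU).mono fun g hg => hg.2
  exact (Homeomorph.mk e.toEquiv hcont hinv).isHomeomorph

theorem homeo_of_sigmaCompact [TopologicalSpace G] [IsTopologicalGroup G] (h : IsLSum A B)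
    [T2Space G] [LocallyCompactSpace G] [SigmaCompactSpace G] (hA : IsClosed (A : Set G))
    (hB : IsClosed (B : Set G)) :
    IsHomeomorph (fun z : A × B => (z.1 : G) * (z.2 : G)) := by
  have : SigmaCompactSpace A := hA.isClosedEmbedding_subtypeVal.sigmaCompactSpace
  have : SigmaCompactSpace B := hB.isClosedEmbedding_subtypeVal.sigmaCompactSpace
  have hcont : Continuous (hom h) := by
    show Continuous fun z : A × B => (z.1 : G) * (z.2 : G)
    fun_prop
  exact ⟨hcont, (hom h).isOpenMap_of_sigmaCompact h.2.2.2.2.1.2 hcont, h.2.2.2.2.1⟩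

end general

/-- A countable, commutative, metrizable counterexample whose summands are discrete, so that `G` is
not even homeomorphic to `A ⊕ B`; and two positive theorems. -/
theorem result :
    (∃ (G : Type) (_ : CommGroup G) (_ : Lattice G) (_ : MulLeftMono G)
      (_ : TopologicalSpace G) (_ : IsTopologicalGroup G) (_ : TopologicalLattice G)
      (A B : Subgroup G), Countable G ∧ MetrizableSpace G ∧ IsLSum A B ∧
        IsClosed (A : Set G) ∧ IsClosed (B : Set G) ∧ DiscreteTopology A ∧ DiscreteTopology B ∧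
        ¬ DiscreteTopology G ∧ IsEmpty ((A × B) ≃ₜ G)) ∧
    (∀ (G : Type) [Group G] [Lattice G] [MulLeftMono G] [MulRightMono G] [TopologicalSpace G]
      [IsTopologicalGroup G] [TopologicalLattice G] (A B : Subgroup G), IsLSum A B →
      (∀ U ∈ 𝓝 (1 : G), ∃ V ∈ 𝓝 (1 : G), V ⊆ U ∧ V.OrdConnected) →
        IsHomeomorph (fun z : A × B => (z.1 : G) * (z.2 : G))) ∧
    (∀ (G : Type) [Group G] [Lattice G] [TopologicalSpace G] [IsTopologicalGroup G] [T2Space G]
      [LocallyCompactSpace G] [SigmaCompactSpace G] (A B : Subgroup G), IsLSum A B →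
      IsClosed (A : Set G) → IsClosed (B : Set G) →
        IsHomeomorph (fun z : A × B => (z.1 : G) * (z.2 : G))) := by
  refine ⟨⟨G, inferInstance, inferInstance, inferInstance, inferInstance, inferInstance,
    inferInstance, A, B, inferInstance, inferInstance, lsum, A_closed, B_closed, inferInstance,
    inferInstance, not_discrete, ⟨fun e => not_discrete e.discreteTopology⟩⟩, ?_, ?_⟩
  · intro G _ _ _ _ _ _ _ A B h hc
    exact homeo_of_convex h hc
  · intro G _ _ _ _ _ _ _ A B h hA hB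
    exact homeo_of_sigmaCompact h hA hB

end Pool.Agent.Results.MP_72b122_al.LocallySolid
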